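import Pool.Agent.Helper60.MW.Walk
import Pool.Agent.Helper60.MW.Rec
import Pool.Agent.Helper60.MW.Cl
import Pool.Agent.Helper63.MS.Three
import Pool.Agent.Helper5.MMRepB

set_option autoImplicit false

/-!
# No three pairwise different replicas; every plaquette is near the wall
-/

namespace Pool.Agent.Helper63.MM

open MeasureTheory ProbabilityTheory Filter Topology Pool.Agent.Helper60.TJ Pool.Agent.Helper61.MM
open scoped symmDiff

theorem w_wq {lam : Measure ℝ} {Q : Measure XX} (hl : Wgt lam) (hQ : IsW lam Q) :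
    Pool.Agent.Helper63.MS.WQ Q :=
  Pool.Agent.Helper63.MS.wq hQ hQ.deg2 hQ.acyclic (hQ.cl hl)

theorem w_one {lam : Measure ℝ} {Q : Measure XX} (hl : Wgt lam)
    (hQ : IsW lam Q) : ∀ᵐ p ∂Q, One p :=
  Pool.Agent.Helper63.MS.one_ae hQ (w_wq hl hQ) (hQ.recomb hl)

theorem w_near {lam : Measure ℝ} {Q : Measure XX} (hl : Wgt lam)
    (hQ : IsW lam Q) {ε : ℝ}
    (hε : 0 < ε) : ∃ (M : ℝ) (r : ℕ), 0 ≤ M ∧ ∀ x, Q {p | ¬ Nr M r x p} ≤ ENNReal.ofReal ε := by
  have : IsFiniteMeasure Q := hQ.fin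
  obtain ⟨K, hK⟩ := Pool.Agent.Helper63.MS.near_small (Q := Q) hQ.inv
    ((w_one hl hQ).mono fun q hq => hq.2.1) hε
  exact ⟨K, K, Nat.cast_nonneg K, hK K le_rfl⟩

theorem no3 {lam : Measure ℝ} {κ : Kernel WT Rs} {R : Measure Om} (hl : Wgt lam)
    (hR : IsR lam κ R)
    (hW : IsW lam (QQ R)) : R (Df 0 1 g0 ∩ Df 0 2 g0 ∩ Df 1 2 g0) = 0 := by
  have := hR.prob
  refine measure_mono_null ?_ (Pool.Agent.Helper63.MS.no_three hR.act hR.ok
    (fun _i _j g hij => Pool.Agent.Helper5.MM.law_pr hl hR hij g) (w_wq hl hW)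
    (w_one hl hW))
  rintro z ⟨⟨h1, h2⟩, h3⟩ i j hij
  have hs : ∀ i j : Fin 3, z ∈ Df i j g0 → z ∈ Df j i g0 := fun i j h => Ne.symm h
  fin_cases i <;> fin_cases j
  · exact absurd rfl hij
  · exact h1
  · exact h2
  · exact hs _ _ h1
  · exact absurd rfl hij
  · exact h3
  · exact hs _ _ h2
  · exact hs _ _ h3
  · exact absurd rfl hij

end Pool.Agent.Helper63.MM
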